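import Mathlib
import Pool.Agent.Lib.MP_339d31_lc.Defs
import Pool.Agent.Lib.MP_339d31_lc.Sing

namespace Pool.Agent.Results.MP_339d31_lc.NotExpressible

open Pool.Agent.Lib.MP_339d31_lc

theorem result : ¬ ∃ φ : Fml 0, ∀ X : TopCat.{0}, TrueIn X φ ↔ SimplyConnectedSpace X := by
  rintro ⟨φ, h⟩
  exact not_simplyConnected₁ ((h _).1 ((trueIn_iff φ).2 ((h _).2 simplyConnected₂)))

end Pool.Agent.Results.MP_339d31_lc.NotExpressible
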